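import Pool.Agent.N795.BV.Stm2

/-!
# Project BV (helper795), part SIG (helper399): lower bound for the mean distance
-/

set_option autoImplicit false

namespace Pool.Agent.N795.BV

namespace SIGx

open ComplexConjugate

/-- one term -/
theorem term {N A B : ℝ} (hN : 0 ≤ N) (hN8 : N ≤ 8) (h : N ^ 2 = A ^ 2 + B ^ 2) :
    A + B ^ 2 / 16 ≤ N := by
  have h1 : A ≤ N := by
    by_contra hA
    push Not at hA
    nlinarith [sq_nonneg B]
  have h2 : 0 ≤ (16 - (N + A)) * (N - A) := mul_nonneg (by linarith) (by linarith)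
  nlinarith

/-- the direction of `z` -/
noncomputable def dir (z : ℂ) : ℂ := z / (‖z‖ : ℂ)

theorem norm_dir {z : ℂ} (h : 0 < ‖z‖) : ‖dir z‖ = 1 := by
  unfold dir
  rw [norm_div, Complex.norm_real, norm_norm, div_self h.ne']

theorem dir_mul {z : ℂ} (h : 0 < ‖z‖) : dir z * (‖z‖ : ℂ) = z := by
  unfold dir
  have : (‖z‖ : ℂ) ≠ 0 := by exact_mod_cast h.ne'
  field_simp

theorem dir_conj {z : ℂ} (h : 0 < ‖z‖) : dir z * conj (dir z) = 1 := by
  rw [Complex.mul_conj, Complex.normSq_eq_norm_sq, norm_dir h]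
  norm_num

theorem norm_sub_sq {z c : ℂ} (h : 0 < ‖z‖) :
    ‖z - c‖ ^ 2 = (‖z‖ - (c * conj (dir z)).re) ^ 2 + (c * conj (dir z)).im ^ 2 := by
  have h1 : ‖z - c‖ = ‖(z - c) * conj (dir z)‖ := by
    rw [norm_mul, RCLike.norm_conj, norm_dir h, mul_one]
  have h2 : (z - c) * conj (dir z) = (‖z‖ : ℂ) - c * conj (dir z) := by
    have h3 : z * conj (dir z) = (‖z‖ : ℂ) := by
      calc z * conj (dir z) = (dir z * (‖z‖ : ℂ)) * conj (dir z) := by rw [dir_mul h]
        _ = (dir z * conj (dir z)) * (‖z‖ : ℂ) := by ring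
        _ = (‖z‖ : ℂ) := by rw [dir_conj h, one_mul]
    rw [sub_mul, h3]
  rw [h1, h2, Complex.sq_norm, Complex.normSq_apply]
  simp only [Complex.sub_re, Complex.sub_im, Complex.ofReal_re, Complex.ofReal_im]
  ring

theorem im_sq {z c : ℂ} (h : 0 < ‖z‖) :
    (c * conj (dir z)).im ^ 2 = (‖c‖ ^ 2 - (c ^ 2 * conj (dir z ^ 2)).re) / 2 := by
  have h1 : ‖c * conj (dir z)‖ ^ 2 = ‖c‖ ^ 2 := by
    rw [norm_mul, RCLike.norm_conj, norm_dir h, mul_one]
  rw [Complex.sq_norm, Complex.normSq_apply] at h1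
  have h2 : c ^ 2 * conj (dir z ^ 2) = (c * conj (dir z)) * (c * conj (dir z)) := by
    rw [map_pow]
    ring
  rw [h2, Complex.mul_re, ← h1]
  ring

theorem re_mul_conj_le (c s : ℂ) : (c * conj s).re ≤ ‖c‖ * ‖s‖ := by
  refine (Complex.re_le_norm _).trans ?_
  rw [norm_mul, RCLike.norm_conj]

theorem main : S_SIG := by
  intro m _ K hK
  refine ⟨1 / (8 * K + 1), 16 * K ^ 2, by positivity, by positivity, ?_⟩
  intro z η h0 hη hs hq hr hp c
  obtain ⟨δ, hδ⟩ : ∃ δ, δ = K * η ^ 2 := ⟨_, rfl⟩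
  rw [← hδ] at hq
  simp only [← hδ] at hr
  have hδ0 : 0 ≤ δ := by rw [hδ]; positivity
  have hδ1 : δ ≤ 1 / 8 := by
    have h1 : η ^ 2 ≤ (1 / (8 * K + 1)) ^ 2 := pow_le_pow_left₀ h0 hη 2
    have h2 : K * (1 / (8 * K + 1)) ^ 2 ≤ 1 / 8 := by
      rw [one_div, inv_pow, ← div_eq_mul_inv, div_le_div_iff₀ (by positivity) (by norm_num)]
      nlinarith [sq_nonneg K]
    rw [hδ]
    exact (mul_le_mul_of_nonneg_left h1 hK.le).trans h2
  have hr1 : ∀ k, 1 - δ ≤ ‖z k‖ ∧ ‖z k‖ ≤ 1 + δ := fun k => by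
    have := abs_le.1 (hr k)
    exact ⟨by linarith [this.1], by linarith [this.2]⟩
  have hpos : ∀ k, 0 < ‖z k‖ := fun k => by linarith [(hr1 k).1]
  have hn : ∑ _k : Fin (m + 1), (1 : ℝ) = (m : ℝ) + 1 := by simp
  have hn0 : (0 : ℝ) ≤ (m : ℝ) + 1 := by positivity
  -- the sum of the moduli
  have hi : (m : ℝ) + 1 ≤ ∑ k, ‖z k‖ := by
    have h1 : ∑ k, Real.log ‖z k‖ = 0 := by
      rw [← Real.log_prod (fun k _ => (hpos k).ne'), hp, Real.log_one]
    have h2 : ∑ k, Real.log ‖z k‖ ≤ ∑ k, (‖z k‖ - 1) :=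
      Finset.sum_le_sum fun k _ => Real.log_le_sub_one_of_pos (hpos k)
    rw [h1, Finset.sum_sub_distrib, hn] at h2
    linarith
  have hgoal : ((m : ℝ) + 1) * (1 - 16 * δ ^ 2) ≤ ∑ k, ‖z k - c‖ := by
    rcases lt_or_ge 3 ‖c‖ with hc | hc
    · have h1 : ∑ _k : Fin (m + 1), (1 : ℝ) ≤ ∑ k, ‖z k - c‖ := by
        refine Finset.sum_le_sum fun k _ => ?_
        have h2 : ‖c‖ - ‖z k‖ ≤ ‖z k - c‖ := by
          rw [norm_sub_rev]
          exact norm_sub_norm_le _ _
        linarith [(hr1 k).2]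
      rw [hn] at h1
      refine le_trans ?_ h1
      nlinarith [sq_nonneg δ]
    · have h1 : ∀ k, ‖z k‖ - (c * conj (dir (z k))).re + (c * conj (dir (z k))).im ^ 2 / 16 ≤
          ‖z k - c‖ := fun k => by
        refine term (norm_nonneg _) ?_ (norm_sub_sq (hpos k))
        have := norm_sub_le (z k) c
        linarith [(hr1 k).2]
      have h2 := Finset.sum_le_sum fun k (_ : k ∈ Finset.univ) => h1 k
      rw [Finset.sum_add_distrib, Finset.sum_sub_distrib] at h2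
      -- the linear term
      have h3 : ∑ k, (c * conj (dir (z k))).re = (c * conj (∑ k, dir (z k))).re := by
        rw [map_sum, Finset.mul_sum, Complex.re_sum]
      have h4 : ‖∑ k, dir (z k)‖ ≤ ((m : ℝ) + 1) * δ := by
        have h5 : ∑ k, dir (z k) = ∑ k, dir (z k) * (1 - (‖z k‖ : ℂ)) := by
          simp only [mul_sub, mul_one, Finset.sum_sub_distrib]
          have h6 : ∑ k, dir (z k) * (‖z k‖ : ℂ) = 0 := by
            rw [← hs]
            exact Finset.sum_congr rfl fun k _ => dir_mul (hpos k)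
          rw [h6, sub_zero]
        rw [h5]
        refine (norm_sum_le _ _).trans ?_
        rw [← hn, Finset.sum_mul]
        refine Finset.sum_le_sum fun k _ => ?_
        rw [norm_mul, norm_dir (hpos k), one_mul, one_mul]
        have h7 : (1 : ℂ) - (‖z k‖ : ℂ) = ((1 - ‖z k‖ : ℝ) : ℂ) := by push_cast; rfl
        rw [h7, Complex.norm_real, Real.norm_eq_abs, abs_sub_comm]
        exact hr k
      have h5 : ∑ k, (c * conj (dir (z k))).re ≤ ‖c‖ * (((m : ℝ) + 1) * δ) := by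
        rw [h3]
        exact (re_mul_conj_le _ _).trans (by gcongr)
      -- the quadratic term
      have h6 : ∑ k, (c * conj (dir (z k))).im ^ 2 / 16 =
          (((m : ℝ) + 1) * ‖c‖ ^ 2 - (c ^ 2 * conj (∑ k, dir (z k) ^ 2)).re) / 32 := by
        have h7 : ∀ k, (c * conj (dir (z k))).im ^ 2 / 16 =
            (1 * ‖c‖ ^ 2 - (c ^ 2 * conj (dir (z k) ^ 2)).re) / 32 := fun k => by
          rw [im_sq (hpos k)]
          ring
        simp only [h7]
        rw [← Finset.sum_div, Finset.sum_sub_distrib, ← Finset.sum_mul, hn, map_sum,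
          Finset.mul_sum, Complex.re_sum]
      have h7 : ‖∑ k, dir (z k) ^ 2‖ ≤ ((m : ℝ) + 1) * (4 * δ) := by
        have h8 : ∑ k, dir (z k) ^ 2 = ∑ k, (z k) ^ 2 +
            ∑ k, dir (z k) ^ 2 * (1 - (‖z k‖ : ℂ) ^ 2) := by
          rw [← Finset.sum_add_distrib]
          refine Finset.sum_congr rfl fun k _ => ?_
          have h9 : z k ^ 2 = dir (z k) ^ 2 * (‖z k‖ : ℂ) ^ 2 := by
            rw [← mul_pow, dir_mul (hpos k)]
          rw [h9]
          ring
        have h9 : ‖∑ k, dir (z k) ^ 2 * (1 - (‖z k‖ : ℂ) ^ 2)‖ ≤ ((m : ℝ) + 1) * (3 * δ) := by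
          refine (norm_sum_le _ _).trans ?_
          rw [← hn, Finset.sum_mul]
          refine Finset.sum_le_sum fun k _ => ?_
          rw [norm_mul, norm_pow, norm_dir (hpos k), one_pow, one_mul, one_mul]
          have h10 : (1 : ℂ) - (‖z k‖ : ℂ) ^ 2 = ((1 - ‖z k‖ ^ 2 : ℝ) : ℂ) := by push_cast; rfl
          rw [h10, Complex.norm_real, Real.norm_eq_abs, abs_le]
          obtain ⟨a, b⟩ := hr1 k
          constructor <;> nlinarith
        rw [h8]
        refine (norm_add_le _ _).trans ?_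
        have h10 : δ ≤ ((m : ℝ) + 1) * δ := by
          have : (0 : ℝ) ≤ m := Nat.cast_nonneg m
          nlinarith
        linarith
      have h8 : (c ^ 2 * conj (∑ k, dir (z k) ^ 2)).re ≤ ‖c‖ ^ 2 * (((m : ℝ) + 1) * (4 * δ)) := by
        refine (re_mul_conj_le _ _).trans ?_
        rw [norm_pow]
        gcongr
      rw [h6] at h2
      have hcc : 0 ≤ ‖c‖ := norm_nonneg c
      have h9 : ((m : ℝ) + 1) * (1 - 16 * δ ^ 2) ≤
          ((m : ℝ) + 1) * (1 - ‖c‖ * δ + ‖c‖ ^ 2 / 64) := by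
        refine mul_le_mul_of_nonneg_left ?_ hn0
        nlinarith [sq_nonneg (‖c‖ / 8 - 4 * δ)]
      have h10 : ((m : ℝ) + 1) * ‖c‖ ^ 2 / 64 ≤
          (((m : ℝ) + 1) * ‖c‖ ^ 2 - ‖c‖ ^ 2 * (((m : ℝ) + 1) * (4 * δ))) / 32 := by
        have h11 : 0 ≤ ((m : ℝ) + 1) * ‖c‖ ^ 2 := by positivity
        nlinarith
      nlinarith
  have hL : 16 * K ^ 2 * η ^ 4 = 16 * δ ^ 2 := by
    rw [hδ]
    ring
  rw [hL]
  exact hgoal

end SIGx

/-- **SIG**: lower bound for the mean distance. -/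
theorem sig : S_SIG := SIGx.main

end Pool.Agent.N795.BV
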